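import Mathlib
import Pool.Agent.H3.Distr

set_option autoImplicit false

open Cardinal Set

namespace Pool.Agent.Results.MP_77bbd4_lc.Undetermined

universe u

/-- `D` is open dense. -/
def OpenDense {P : Type u} [PartialOrder P] (D : Set P) : Prop :=
  (∀ p ∈ D, ∀ q, q ≤ p → q ∈ D) ∧ ∀ p, ∃ q ∈ D, q ≤ p

/-- `P` is strongly `<κ`-distributive. -/
def StronglyDistributive (κ : Cardinal.{u}) (P : Type u) [PartialOrder P] : Prop :=
  ∀ D : Ordinal.{u} → Set P, (∀ α < κ.ord, OpenDense (D α)) → ∀ p : P,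
    ∃ s : Ordinal.{u} → P, s 0 ≤ p ∧ (∀ α β, α < β → β < κ.ord → s β ≤ s α) ∧
      ∀ α < κ.ord, s α ∈ D α

/-- even ordinals (these include `0` and all limit ordinals): the stages at which COM moves -/
def EvenOrd (α : Ordinal.{u}) : Prop := ∃ β, α = 2 * β

/-- `q` is a legal move at stage `α` after the moves `s β`, `β < α`. -/
def Legal {P : Type u} [PartialOrder P] [OrderTop P] (s : Ordinal.{u} → P) (α : Ordinal.{u})
    (q : P) : Prop :=
  (α = 0 → q = ⊤) ∧ ∀ β < α, q ≤ s β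

/-- COM has a winning strategy `σ` in `G(P, κ)`: at every stage `α < κ` of COM, after any play in
which COM followed `σ` and INC moved legally, the move prescribed by `σ` is legal. -/
def StrategicallyClosed (κ : Cardinal.{u}) (P : Type u) [PartialOrder P] [OrderTop P] : Prop :=
  ∃ σ : ∀ α : Ordinal.{u}, (Iio α → P) → P,
    ∀ (s : Ordinal.{u} → P) (α : Ordinal.{u}), α < κ.ord → EvenOrd α →
      (∀ γ < α, (EvenOrd γ → s γ = σ γ fun β => s β) ∧ (¬ EvenOrd γ → Legal s γ (s γ))) →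
      Legal s α (σ α fun β => s β)

open Pool.Agent.H3.Distr

theorem evenOrd_nat (k : ℕ) : EvenOrd (k : Ordinal.{u}) ↔ Even k := by
  constructor
  · rintro ⟨β, h⟩
    have h1 : β < Ordinal.omega0 := by
      refine lt_of_le_of_lt ?_ (Ordinal.natCast_lt_omega0 k)
      rw [h]
      exact Ordinal.le_mul_right β (by norm_num)
    obtain ⟨m, rfl⟩ := Ordinal.lt_omega0.1 h1
    have : k = 2 * m := by exact_mod_cast h
    exact ⟨m, by omega⟩
  · rintro ⟨m, rfl⟩
    exact ⟨m, by rw [← two_mul]; push_cast; rfl⟩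

section
variable {P : Type u} [PartialOrder P] [OrderTop P] {Λ : Type u}
  (σ : ∀ α : Ordinal.{u}, (Iio α → P) → P) (ins : Λ → P → P)

open Classical in
noncomputable def move (β : ℕ → Λ) (k : ℕ) (h : ℕ → P) : P :=
  if Even k then σ k fun a => h (Cardinal.toNat a.1.card) else ins (β (k / 2)) (h (k - 1))

noncomputable def hist (β : ℕ → Λ) : ℕ → ℕ → P
  | 0 => fun _ => ⊤
  | k + 1 => Function.update (hist β k) k (move σ ins β k (hist β k))

noncomputable def pl (β : ℕ → Λ) (k : ℕ) : P := move σ ins β k (hist σ ins β k)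

theorem hist_eq (β : ℕ → Λ) (k j : ℕ) (h : j < k) : hist σ ins β k j = pl σ ins β j := by
  induction k with
  | zero => omega
  | succ k ih =>
    rcases Nat.lt_succ_iff_lt_or_eq.1 h with h | rfl
    · rw [hist, Function.update_of_ne h.ne, ih h]
    · rw [hist, Function.update_self, pl]

theorem hist_congr {β β' : ℕ → Λ} {m : ℕ} (h : ∀ n < m, β n = β' n) (k : ℕ) (hk : k ≤ 2 * m + 1) :
    hist σ ins β k = hist σ ins β' k := by
  induction k with
  | zero => rfl
  | succ k ih =>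
    rw [hist, hist, ih (by omega)]
    congr 1
    unfold move
    split_ifs with he
    · rfl
    · rw [h (k / 2) (by obtain ⟨j, hj⟩ := Nat.not_even_iff_odd.1 he; omega)]

theorem pl_congr {β β' : ℕ → Λ} {m : ℕ} (h : ∀ n < m, β n = β' n) :
    pl σ ins β (2 * m) = pl σ ins β' (2 * m) := by
  rw [← hist_eq σ ins β (2 * m + 1) _ (by omega), ← hist_eq σ ins β' (2 * m + 1) _ (by omega),
    hist_congr σ ins h _ le_rfl]

theorem pl_even (β : ℕ → Λ) (k : ℕ) (hk : Even k) :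
    pl σ ins β k = σ k fun a => pl σ ins β (Cardinal.toNat a.1.card) := by
  rw [pl, move, if_pos hk]
  congr 1
  funext a
  obtain ⟨j, hj⟩ := Ordinal.lt_omega0.1 (lt_trans a.2 (Ordinal.natCast_lt_omega0 k))
  have h1 : (j : Ordinal.{u}) < k := hj ▸ a.2
  refine hist_eq σ ins β k _ ?_
  rw [hj]
  simpa using h1

theorem pl_odd (β : ℕ → Λ) (n : ℕ) :
    pl σ ins β (2 * n + 1) = ins (β n) (pl σ ins β (2 * n)) := by
  rw [pl, move, if_neg (by simp), hist_eq σ ins β _ _ (by omega)]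
  congr 2
  omega

end

theorem not_closed {Λ : Type u} [LinearOrder Λ] {κ μ : Cardinal.{u}} (hκ : ℵ₀ < κ) (hκμ : κ ≤ μ)
    (hB : ∀ s : Set Λ, #s ≤ μ → ∃ b, ∀ x ∈ s, x < b) (hS : ∀ b : Λ, #(Iic b) ≤ μ)
    {T : Set Λ} (hT : Pos T) : ¬ StrategicallyClosed κ (PT κ T) := by
  classical
  rintro ⟨σ, hσ⟩
  have hμ : ℵ₀ ≤ μ := hκ.le.trans hκμ
  let ins : Λ → PT κ T → PT κ T := fun b c =>
    if h : ∀ x ∈ c.1, x < b then ⟨insert b c.1, c.2.ins hκ.le h⟩ else c
  have ins_le : ∀ b c, ins b c ≤ c := fun b c => by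
    simp only [ins]
    split_ifs with h
    · exact EE.ins h
    · exact le_rfl
  have hF : ∀ γ : Λ, ∃ g, ∀ (β : ℕ → Λ) (m : ℕ), (∀ n < m, β n ≤ γ) →
      ∀ x ∈ (pl σ ins β (2 * m)).1, x < g := by
    intro γ
    haveI : Nonempty (Iic γ) := ⟨⟨γ, le_rfl⟩⟩
    obtain ⟨g, hg⟩ := hB (⋃ l : List (Iic γ),
      (pl σ ins (fun n => (l.getD n ⟨γ, le_rfl⟩).1) (2 * l.length)).1)
      (small_iUnion _ hμ (by rw [mk_list_eq_max_mk_aleph0]; exact max_le (hS γ) hμ)
        fun l => (pl σ ins _ _).2.1.trans hκμ)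
    refine ⟨g, fun β m h x hx => hg x (mem_iUnion.2
      ⟨List.ofFn fun n : Fin m => ⟨β n, h n n.2⟩, ?_⟩)⟩
    rw [List.length_ofFn, ← pl_congr σ ins (β := β) fun n hn => by simp [hn]]
    exact hx
  choose F hF using hF
  obtain ⟨δ, hδ, β, h1, h2, h3⟩ := hT F
  let s : Ordinal.{u} → PT κ T := fun a => pl σ ins β (Cardinal.toNat a.card)
  have hs : ∀ k : ℕ, s k = pl σ ins β k := fun k => by simp [s]
  have hω : Ordinal.omega0 < κ.ord := by rw [← ord_aleph0]; exact ord_lt_ord.2 hκ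
  have lt_nat : ∀ (k : ℕ) (a : Ordinal.{u}), a < k → ∃ j : ℕ, j < k ∧ a = j := fun k a ha => by
    obtain ⟨j, rfl⟩ := Ordinal.lt_omega0.1 (lt_trans ha (Ordinal.natCast_lt_omega0 k))
    exact ⟨j, by exact_mod_cast ha, rfl⟩
  have ok : ∀ k : ℕ, Legal s k (s k) → (EvenOrd (k : Ordinal.{u}) → s k = σ k fun a => s a) ∧
      (¬ EvenOrd (k : Ordinal.{u}) → Legal s k (s k)) := fun k h =>
    ⟨fun he => by rw [hs, pl_even σ ins β k ((evenOrd_nat k).1 he)], fun _ => h⟩
  have legal : ∀ k : ℕ, Legal s k (s k) := by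
    intro k
    induction k using Nat.strong_induction_on with
    | _ k ih =>
      rcases Nat.even_or_odd k with he | ⟨n, rfl⟩
      · have := hσ s k (lt_trans (Ordinal.natCast_lt_omega0 k) hω) ((evenOrd_nat k).2 he)
          fun γ hγ => by
            obtain ⟨j, hj, rfl⟩ := lt_nat k γ hγ
            exact ok j (ih j hj)
        rwa [hs, pl_even σ ins β k he]
      · refine ⟨fun h => absurd (by exact_mod_cast h : 2 * n + 1 = 0) (by omega), fun γ hγ => ?_⟩
        obtain ⟨j, hj, rfl⟩ := lt_nat _ γ hγ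
        rw [hs, pl_odd]
        refine (ins_le _ _).trans ?_
        rw [← hs]
        rcases Nat.lt_succ_iff_lt_or_eq.1 hj with h | rfl
        · exact (ih (2 * n) (by omega)).2 j (by exact_mod_cast h)
        · exact le_rfl
  have hr := hσ s Ordinal.omega0 hω ⟨Ordinal.omega0, by
    exact_mod_cast (Ordinal.natCast_mul_omega0 (n := 2) (by norm_num)).symm⟩ fun γ hγ => by
      obtain ⟨j, rfl⟩ := Ordinal.lt_omega0.1 hγ
      exact ok j (legal j)
  set r := σ Ordinal.omega0 fun a => s a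
  have hmem : ∀ n, β n ∈ r.1 := by
    intro n
    have h4 : ∀ x ∈ (pl σ ins β (2 * n)).1, x < β n := by
      cases n with
      | zero =>
        have := (legal 0).1 (by simp)
        rw [hs] at this
        rw [mul_zero, this]
        exact fun x hx => hx.elim
      | succ n =>
        exact fun x hx => (hF (β n) β (n + 1) (fun j hj => h2.monotone (by omega)) x hx).trans (h1 n)
    have h5 := hr.2 ((2 * n + 1 : ℕ) : Ordinal.{u}) (Ordinal.natCast_lt_omega0 _)
    rw [hs, pl_odd] at h5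
    refine h5.1 ?_
    simp only [ins]
    rw [dif_pos h4]
    exact mem_insert _ _
  have hlt : ∀ n, β n < δ := fun n => lt_of_lt_of_le (h2 (Nat.lt_succ_self n)) (h3.1 ⟨n + 1, rfl⟩)
  refine r.2.2 δ hδ ⟨⟨β 0, hmem 0, hlt 0⟩, fun b hb => ?_⟩
  obtain ⟨_, ⟨n, rfl⟩, hn, -⟩ := h3.exists_between hb
  exact ⟨β n, hmem n, hn, hlt n⟩

theorem result (κ : Cardinal.{u}) (hκ : ℵ₀ < κ) :
    ∃ (P : Type u) (_ : PartialOrder P) (_ : OrderTop P),
      StronglyDistributive κ P ∧ ¬ StrategicallyClosed κ P := by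
  have hκμ : κ < 2 ^ κ := cantor κ
  have hμ : ℵ₀ ≤ 2 ^ κ := hκ.le.trans hκμ.le
  obtain ⟨hB, hS, hΛ⟩ := lam_props hμ
  obtain ⟨I, T, hI, hI', hpos, hdis⟩ := ulam hμ hB hS hΛ hκμ
  obtain ⟨i, hi⟩ := distr (K := κ.ord.ToType) hκ.le hκμ.le
    (by rw [← power_mul, mul_eq_self hκ.le]) hB hS (mk_ord_toType κ).le T hI hI' hdis
  refine ⟨PT κ (T i), inferInstance, inferInstance, fun D hD p => ?_,
    not_closed hκ hκμ.le hB hS (hpos i)⟩
  classical
  let e : Iio κ.ord ≃o κ.ord.ToType := Ordinal.ToType.mk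
  obtain ⟨s, h1, h2, h3⟩ := hi (fun a => D (e.symm a)) (fun a => (hD _ (e.symm a).2).2) p
  have h0 : (0 : Ordinal.{u}) < κ.ord := by
    rw [← ord_zero]; exact ord_lt_ord.2 (aleph0_pos.trans hκ)
  refine ⟨fun α => if h : α < κ.ord then s (e ⟨α, h⟩) else p, ?_, fun α β hαβ hβ => ?_,
    fun α hα => ?_⟩
  · simp only [dif_pos h0]
    exact h1 _
  · simp only [dif_pos hβ, dif_pos (hαβ.trans hβ)]
    exact h2 _ _ (e.strictMono hαβ)
  · simp only [dif_pos hα]
    simpa using h3 (e ⟨α, hα⟩)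

end Pool.Agent.Results.MP_77bbd4_lc.Undetermined
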